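import Pool.Agent.Lib.MP_7bb85c_nt.Pisot

/-!
# Partial quotients in the orbits of integer Moebius maps and in cubic fields

`β = (A α + B) / (G α + H)` with integers `A, B, G, H` and `D = |A H - B G| ≥ 1`. The large partial
quotients of `β` are matched with partial quotients of `α`, and the sums of the partial quotients
of `β` are bounded by those of `α`, with constants which depend only on `D`. In a cubic field the
irrational numbers form one orbit, and `D` is given by the index form; so Q1 for all cubic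
irrational numbers says the same as Q1 for one number in each real cubic field, and the same as Q1
for the cubic Pisot units of norm one.
-/

set_option autoImplicit false

namespace Pool.Agent.Results.MP_7bb85c_nt.CubicFields

open Filter

/-- The partial quotient `a_(k+1)` of `α`, as in the frozen statement of Q1. -/
noncomputable def partialQuotient (α : ℝ) (k : ℕ) : ℝ :=
  ((GenContFract.of α).partDens.get? k).getD 0

/-- The sum `a_1 + ... + a_n` of the first `n` partial quotients of `α`. -/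
noncomputable def partialQuotientSum (α : ℝ) (n : ℕ) : ℝ :=
  ∑ k ∈ Finset.range n, partialQuotient α k

/-- Q1's bound for the number `α`. -/
def HasQuadraticSums (α : ℝ) : Prop :=
  ∃ C : ℝ, ∀ n : ℕ, 1 ≤ n → partialQuotientSum α n ≤ C * (n : ℝ) ^ 2

/-- The partial quotients `b_k` of `β` are controlled by those of `α`, with the parameter `D`.
There are `c` and `ι` such that:
for `k ≥ c` with `b_(k+1) > 8 D` the index `i = ι k` satisfies `i ≤ (18 + 6 λ) k + c` and
`b_(k+1) ≤ 6 D a_(i+1)`, and different such `k` have different `i`;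
`b_1 + ... + b_n ≤ 14 D (a_1 + ... + a_m) + c` with `m = (18 + 6 λ) n + c`, for all `n`;
if `a_1 + ... + a_n ≤ K n²` for all large `n`, then `b_1 + ... + b_n ≤ 15 D (19 + 6 λ)² K n²` for
all large `n`. Here `λ` is the integral part of `log D / log 2`. -/
def Controlled (α β : ℝ) (D : ℕ) : Prop :=
  ∃ (c : ℕ) (ι : ℕ → ℕ),
    (∀ k : ℕ, c ≤ k → 8 * (D : ℝ) < partialQuotient β k →
      ι k ≤ (18 + 6 * Nat.log 2 D) * k + c ∧ partialQuotient β k ≤ 6 * D * partialQuotient α (ι k) ∧
        ∀ k' : ℕ, c ≤ k' → 8 * (D : ℝ) < partialQuotient β k' → ι k' = ι k → k' = k) ∧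
    (∀ n : ℕ, partialQuotientSum β n ≤
      14 * D * partialQuotientSum α ((18 + 6 * Nat.log 2 D) * n + c) + c) ∧
    (∀ K : ℝ, (∀ᶠ n : ℕ in atTop, partialQuotientSum α n ≤ K * (n : ℝ) ^ 2) →
      ∀ᶠ n : ℕ in atTop, partialQuotientSum β n ≤
        15 * D * (19 + 6 * Nat.log 2 D) ^ 2 * (K * (n : ℝ) ^ 2))

lemma controlled {α : ℝ} (hα : Irrational α) {A B G H : ℤ} {D : ℕ}
    (hD : |A * H - B * G| = D) (hD0 : 0 < D) :
    Controlled α ((A * α + B) / (G * α + H)) D := by
  have hne : A * H - B * G ≠ 0 := by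
    intro h0
    rw [h0, abs_zero] at hD
    have : (D : ℤ) = 0 := hD.symm
    omega
  have hβ := Lib.MP_7bb85c_nt.irr_div hα (Lib.MP_7bb85c_nt.rel_div hα hne)
  have h1 : ∀ k, partialQuotient α k = Lib.MP_7bb85c_nt.pa α (k + 1) :=
    Lib.MP_7bb85c_nt.partDens_eq hα
  have h2 : ∀ k, partialQuotient ((A * α + B) / (G * α + H)) k =
      Lib.MP_7bb85c_nt.pa ((A * α + B) / (G * α + H)) (k + 1) :=
    Lib.MP_7bb85c_nt.partDens_eq hβ
  have h3 : ∀ n, partialQuotientSum α n = Lib.MP_7bb85c_nt.SS α n :=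
    Lib.MP_7bb85c_nt.partSum_eq hα
  have h4 : ∀ n, partialQuotientSum ((A * α + B) / (G * α + H)) n =
      Lib.MP_7bb85c_nt.SS ((A * α + B) / (G * α + H)) n :=
    Lib.MP_7bb85c_nt.partSum_eq hβ
  unfold Controlled
  simp only [h1, h2, h3, h4]
  exact Lib.MP_7bb85c_nt.explicit hα hD hD0

/-- (1) Let `α` be irrational, `A, B, G, H` integers and `D = |A H - B G| ≥ 1`. The partial
quotients of `(A α + B) / (G α + H)` are controlled by those of `α`, with the parameter `D`.

(2) Let `α` be irrational, `a α³ + b α² + c α + d = 0` with integers `a ≠ 0`, `b`, `c`, `d`, and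
let `β = (x + y α + z α²) / w` be irrational with integers `x`, `y`, `z`, `w ≠ 0`. The same holds
for `α` and `β` with `D = |w (a² y³ - 2 a b y² z + (b² + a c) y z² + (a d - b c) z³)|`, and this
number is not zero.

(3) Q1's bound holds for every real cubic irrational number if and only if every real cubic field
contains one irrational number for which it holds, and if and only if it holds for every Pisot unit
`θ` of degree three and norm one: `θ > 1` is a root of some `X³ + b X² + c X - 1` with integers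
`b`, `c`, and the other complex roots of this polynomial have absolute value less than one. -/
theorem result :
    (∀ (A B G H : ℤ) (D : ℕ), |A * H - B * G| = (D : ℤ) → 0 < D → ∀ α : ℝ, Irrational α →
      Controlled α ((A * α + B) / (G * α + H)) D) ∧
    (∀ (α β : ℝ) (a b c d x y z w : ℤ) (D : ℕ), Irrational α → Irrational β → a ≠ 0 → w ≠ 0 →
      (a : ℝ) * α ^ 3 + b * α ^ 2 + c * α + d = 0 → β = (x + y * α + z * α ^ 2) / w →
      |w * (a ^ 2 * y ^ 3 - 2 * a * b * y ^ 2 * z + (b ^ 2 + a * c) * y * z ^ 2 +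
        (a * d - b * c) * z ^ 3)| = (D : ℤ) → 0 < D ∧ Controlled α β D) ∧
    ((∀ α : ℝ, (minpoly ℚ α).natDegree = 3 → HasQuadraticSums α) ↔
      ∀ F : IntermediateField ℚ ℝ, Module.finrank ℚ F = 3 →
        ∃ θ ∈ F, Irrational θ ∧ HasQuadraticSums θ) ∧
    ((∀ α : ℝ, (minpoly ℚ α).natDegree = 3 → HasQuadraticSums α) ↔
      ∀ (θ : ℝ) (b c : ℤ), 1 < θ → θ ^ 3 + b * θ ^ 2 + c * θ - 1 = 0 →
        (∀ z : ℂ, z ^ 3 + b * z ^ 2 + c * z - 1 = 0 → z ≠ θ → ‖z‖ < 1) →
        (minpoly ℚ θ).natDegree = 3 → HasQuadraticSums θ) := by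
  refine ⟨fun A B G H D hD hD0 α hα => controlled hα hD hD0, ?_, Lib.MP_7bb85c_nt.fields_iff,
    Lib.MP_7bb85c_nt.pisot_iff⟩
  intro α β a b c d x y z w D hα hβ ha hw h hβe hD
  have hwR : (w : ℝ) ≠ 0 := by exact_mod_cast hw
  have hβe' : β * w = x + y * α + z * α ^ 2 := by
    rw [hβe]
    exact div_mul_cancel₀ _ hwR
  obtain ⟨hrel, hdet⟩ := Lib.MP_7bb85c_nt.rel_cubic hα hβ ha hw h hβe'
  have hne := hrel.1
  rw [← hdet] at hD
  have hD0 : 0 < D := by
    have h1 : (0 : ℤ) < D := by
      rw [← hD]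
      exact abs_pos.mpr hne
    exact_mod_cast h1
  refine ⟨hD0, ?_⟩
  rw [Lib.MP_7bb85c_nt.eq_div_of_rel hα hrel]
  exact controlled hα hD hD0

end Pool.Agent.Results.MP_7bb85c_nt.CubicFields
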