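import Pool.Agent.Lib.MP_7bb85c_nt.RateC

/-!
# Q1 for the numbers of degree `d ≥ 3` and nearly Pisot numbers of degree `d`

If Q1's bound fails for a real number `α` of degree `d ≥ 3`, then for every `ε > 0` there are
rational numbers `p / q` with `q |q α - p| < ε log log q / log q`. Such an approximation gives an
integer Moebius map which sends `α` to an algebraic integer `θ > 1`, of size about `q^(d - 2)`, all
of whose other conjugates are small and very close to each other. The sums of the partial quotients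
of `α` and of `θ` are of the same order. So Q1 for the numbers of degree `d` says the same as Q1
for these `θ`. For `d = 3` and `d = 4` they are Pisot numbers.
-/

set_option autoImplicit false

namespace Pool.Agent.Results.MP_7bb85c_nt.NearlyPisot

/-- The partial quotient `a_(k+1)` of `α`, as in the frozen statement of Q1. -/
noncomputable def partialQuotient (α : ℝ) (k : ℕ) : ℝ :=
  ((GenContFract.of α).partDens.get? k).getD 0

/-- The sum `a_1 + ... + a_n` of the first `n` partial quotients of `α`. -/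
noncomputable def partialQuotientSum (α : ℝ) (n : ℕ) : ℝ :=
  ∑ k ∈ Finset.range n, partialQuotient α k

/-- Q1's bound for the number `α`. -/
def HasQuadraticSums (α : ℝ) : Prop :=
  ∃ C : ℝ, ∀ n : ℕ, 1 ≤ n → partialQuotientSum α n ≤ C * (n : ℝ) ^ 2

/-- `R(θ) = θ^((d - 4) / (d - 2)) log log θ / log θ`. -/
noncomputable def radius (d : ℕ) (θ : ℝ) : ℝ :=
  θ ^ (((d : ℝ) - 4) / (d - 2)) * (Real.log (Real.log θ) / Real.log θ)

/-- `θ > 1` is an algebraic integer of degree `d`, and all other conjugates `z`, `z'` of `θ`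
satisfy `|z| < ε max (1, R(θ))` and `|z - z'| < ε R(θ)`. -/
def IsNearlyPisot (d : ℕ) (ε θ : ℝ) : Prop :=
  (minpoly ℚ θ).natDegree = d ∧ IsIntegral ℤ θ ∧ 1 < θ ∧
    ∀ z : ℂ, Polynomial.aeval z (minpoly ℚ θ) = 0 → z ≠ θ →
      ‖z‖ < ε * max 1 (radius d θ) ∧
      ∀ z' : ℂ, Polynomial.aeval z' (minpoly ℚ θ) = 0 → z' ≠ θ → ‖z - z'‖ < ε * radius d θ

/-- Let `d ≥ 3` and `ε > 0`.

(1) If Q1's bound fails for the real number `α` of degree `d`, then there are integers
`A, B, G, H` with `A H - B G ≠ 0` such that `(A α + B) / (G α + H)` is nearly Pisot.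

(2) For every subfield `F` of `ℝ` (which may be `ℝ`), Q1's bound holds for all numbers of degree
`d` in `F` if and only if it holds for all nearly Pisot numbers of degree `d` in `F`.

(3) If `d ≤ 4` and `ε ≤ 1`, then the nearly Pisot numbers are Pisot numbers: their other
conjugates have absolute value less than one. -/
theorem result (d : ℕ) (ε : ℝ) (hd : 3 ≤ d) (hε : 0 < ε) :
    (∀ α : ℝ, (minpoly ℚ α).natDegree = d → ¬ HasQuadraticSums α →
      ∃ A B G H : ℤ, A * H - B * G ≠ 0 ∧ IsNearlyPisot d ε ((A * α + B) / (G * α + H))) ∧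
    (∀ F : IntermediateField ℚ ℝ,
      (∀ α ∈ F, (minpoly ℚ α).natDegree = d → HasQuadraticSums α) ↔
        ∀ θ ∈ F, IsNearlyPisot d ε θ → HasQuadraticSums θ) ∧
    (d ≤ 4 → ε ≤ 1 → ∀ θ : ℝ, IsNearlyPisot d ε θ →
      ∀ z : ℂ, Polynomial.aeval z (minpoly ℚ θ) = 0 → z ≠ θ → ‖z‖ < 1) :=
  ⟨fun _ hdeg hfail => Lib.MP_7bb85c_nt.fail_orbit d ε hd hε hdeg hfail,
    fun F => Lib.MP_7bb85c_nt.fail_fields d ε hd hε F,
    fun hd4 hε1 _ hθ z hz hne => Lib.MP_7bb85c_nt.pisot_of_near hd hd4 hε1 hθ z hz hne⟩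

end Pool.Agent.Results.MP_7bb85c_nt.NearlyPisot
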